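import Pool.Agent.L0h63.MP.All

set_option autoImplicit false

/-!
# Odd and even values of the `t`-multipartition function on average over `t` (MP_a3366f_nt)

Let `p_t(n)` be the number of `t`-multipartitions of `n`, that is, the coefficient of `q ^ n` in
`1 / f_1 ^ t`. Let `ε > 0`. There is a constant `C` such that, for every power series `F` over `F_2`
with constant term 1, for `κ = 0, 1` and for all `A, x, N ≥ 1` and `y ≥ 1`, at most
`C y N / min (x, N) ^ (1 - ε)` of the `N` integers `A ≤ t < A + N` are such that the coefficient of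
`q ^ n` in `F / f_1 ^ t` is `κ` modulo 2 for at most `y` of the `n < x`.

For `F = 1` and `y = x ^ (1 - 2 ε)`: all but `O(N x ^ (-ε))` of the `t` in an interval of length
`N ≥ x` (in particular, of the odd `t`) have at least `x ^ (1 - 2 ε)` odd values and at least
`x ^ (1 - 2 ε)` even values `p_t(n)`, `n < x`. Intervals of length `x ^ (1/2 + δ)` still give more than
`x ^ (1/2 + δ/2)` such `n` for almost all `t`. For a single `t` only about `√x` odd values are known.
The series `F = ∑ c_{i,l} q ^ l f_1 ^ (-i)` give the same for all linear patterns of the values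
`p_{t + i}(n - l)`, and eta-quotients `F` give all the quotients `F / f_1 ^ t`.

Method. Modulo 2 one has `f_1 ^ 3 = T = ∑ q ^ (n (n + 1) / 2)`; so it is enough to consider `T ^ t F`.
1. Let `Θ_N(a) = ∑ q ^ (k ^ 2)`, `k ≡ a` modulo `N = 2 ^ (j + 2)`. Every polynomial relation between the
series `Θ_N(a)` over `F_2` is preserved if all `a` are replaced by `3 a`. Namely, the field of the series
of level `2 N` is generated by `Θ_{2N}(1)` over the one of level `N`, and it is quadratic: otherwise the
automorphism of level `N`, which has order `N / 8` or less, would act on the series of level `2 N` as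
`a ↦ 3 a` or `a ↦ (3 + N) a`, which has twice this order.
2. Therefore the determinants formed by the parts of `T ^ u`, in the classes modulo `2 ^ j`, along a
system of points `(n, u)` modulo `2 ^ j`, one on each line of a given direction `c`, are not zero:
after `a ↦ 3 ^ l a` the matrix is a permutation matrix in lowest order. So for each `F ≠ 0` the set of the
`(n, u)` modulo `2 ^ j` for which the part of `T ^ u F` with exponents in the class of `n` is not zero
contains a full line in each of the `2 ^ j` directions: it is a Kakeya set. The same holds with a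
uniform precision, which depends on `j` only.
3. The second moment argument for Kakeya sets shows that such a set has, on average over `u`, a large
fibre: the sum of the reciprocals of the sizes of the fibres is at most `1 + j / 2`.
4. Iteration over the digits of `t` in base `2 ^ j`: the sum over `t < 2 ^ (j n)` of `1 / G(t)` is at most
`(1 + j / 2) ^ n`, where `G(t)` is the number of classes modulo `2 ^ (j n)` which contain a small `n'` with
an odd coefficient of `T ^ t F`.
-/

namespace Pool.Agent.Results.MP_a3366f_nt.AverageOverT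

open PowerSeries

/-- the number `p_t(n)` of `t`-multipartitions of `n`: the coefficient of `q ^ n` in
`∏ 1 / (1 - q ^ i) ^ t` -/
def multipartitions (t n : ℕ) : ℕ :=
  ∑ x ∈ Finset.Nat.antidiagonalTuple t n, ∏ i, Fintype.card (Nat.Partition (x i))

/-- the number of the `n < x` for which the coefficient of `q ^ n` in the product of the power series
`∑ F(k) q ^ k` and `∏ 1 / (1 - q ^ i) ^ t` is `κ` modulo 2 -/
def count (F : ℕ → ZMod 2) (κ : ZMod 2) (t x : ℕ) : ℕ :=
  ((Finset.range x).filter fun n => ∑ k ∈ Finset.range (n + 1),
    F k * (multipartitions t (n - k) : ZMod 2) = κ).card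

private theorem count_eq (F : ℕ → ZMod 2) (κ : ZMod 2) (t x : ℕ) :
    count F κ t x = Pool.Agent.L0h63.MP.cntk (PowerSeries.mk F) κ x t := by
  unfold count Pool.Agent.L0h63.MP.cntk
  congr 1
  ext n
  simp only [Finset.mem_filter]
  refine and_congr_right fun _ => ?_
  have h : coeff n (PowerSeries.mk F * Pool.Agent.TH693.PP.P ^ t) =
      ∑ k ∈ Finset.range (n + 1), F k * (multipartitions t (n - k) : ZMod 2) := by
    rw [coeff_mul, Finset.Nat.sum_antidiagonal_eq_sum_range_succ_mk]
    refine Finset.sum_congr rfl fun k _ => ?_
    rw [coeff_mk]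
    have := Pool.Agent.H413R3.Part.coeff_pow_eq t (n - k)
    unfold Pool.Agent.TH693.PP.P
    rw [this]
    rfl
  rw [← h]

theorem result (ε : ℝ) (hε : 0 < ε) :
    ∃ C : ℝ, ∀ F : ℕ → ZMod 2, F 0 = 1 → ∀ (κ : ZMod 2) (A x N : ℕ) (y : ℝ),
      1 ≤ x → 1 ≤ N → 1 ≤ y →
        ({t : ℕ | A ≤ t ∧ t < A + N ∧ (count F κ t x : ℝ) ≤ y}.ncard : ℝ) ≤
          C * y * N / (min x N : ℕ) ^ (1 - ε) := by
  classical
  obtain ⟨C, -, h⟩ := Pool.Agent.L0h63.MP.final ε hε
  refine ⟨C, fun F hF κ A x N y hx hN hy => ?_⟩
  have h1 := h (PowerSeries.mk F) (by rw [coeff_mk, hF]; exact one_ne_zero) κ A x N y hx hN hy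
  have e : {t : ℕ | A ≤ t ∧ t < A + N ∧ (count F κ t x : ℝ) ≤ y} =
      ((Finset.Ico A (A + N)).filter fun t =>
        (Pool.Agent.L0h63.MP.cntk (PowerSeries.mk F) κ x t : ℝ) ≤ y : Finset ℕ) := by
    ext t
    rw [Finset.mem_coe, Finset.mem_filter, Finset.mem_Ico, Set.mem_ofPred_eq, count_eq, and_assoc]
  rw [e, Set.ncard_coe_finset]
  exact h1

end Pool.Agent.Results.MP_a3366f_nt.AverageOverT
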