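import Pool.Agent.L0h63.MP.Fam2

set_option autoImplicit false

/-!
# Families of predictors for the parity of the `t`-multipartition function (MP_a3366f_nt)

Let `p_t(n)` be the number of `t`-multipartitions of `n`, that is, the coefficient of `q ^ n` in
`1 / f_1 ^ t`. Let `ε > 0`. There is a constant `C`, which depends on `ε` only, such that, for every
power series `F` over `F_2` with constant term 1, all integers `A ≥ 0` and `x, N ≥ 1` and all real
numbers `y ≥ 1`:

1. Let `F'` be an arbitrary power series over `F_2`. At most `C y N ^ 2 / min (x, N) ^ (1 - ε)` of the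
   `N ^ 2` pairs `(s, t)` with `A ≤ s, t < A + N` are such that the coefficients of `q ^ n` in
   `F / f_1 ^ s` and in `F' / f_1 ^ t` are different for at most `y` of the `n < x`. For `F = F' = 1` this
   compares the parities of `p_s(n)` and `p_t(n)`, for `F' = q ^ a` those of `p_s(n)` and `p_t(n - a)`.
2. Let `𝒢` be an arbitrary finite set of sequences `g : ℕ → F_2`. At most
   `C N (|𝒢| y / min (x, N) ^ (1 - ε)) ^ (1 / 2)` of the `N` integers `A ≤ t < A + N` are such that for
   some `g` in `𝒢` the coefficient of `q ^ n` in `F / f_1 ^ t` differs from `g(n)` for at most `y` of the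
   `n < x`.

For `F = 1`, `y = x ^ ε` and `N ≥ x`: for any set of at most `x ^ (1 - 3 ε)` sequences, which may depend on
`x`, all but `O(N x ^ (-ε / 2))` of the `t` in an interval of length `N` have a parity sequence whose
Hamming distance on `[0, x)` from each of the sequences is more than `x ^ ε`. The size of the set is
optimal up to `x ^ (3 ε)`, since for `N = x` the set of the `N` parity sequences themselves contains all
of them. For example, the sequences may be all outputs of the programs of length at most
`(1 - 4 ε) log_2 x` (with any oracle): for almost all `t ≤ x` the parities of `p_t(n)`, `n < x`, cannot be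
described, even up to `x ^ ε` errors, in `(1 - 4 ε) log_2 x` bits, while `t` itself, hence the sequence,
is described in `log_2 x + O(1)` bits.

The case of one sequence is the former theorem `ArbitraryPredictors`; a union bound over the sequences
would allow only `x ^ (1 / 2)` sequences in place of `x`.

Method. `F / f_1 ^ t + F' / f_1 ^ (t + h)` is `D_h / f_1 ^ t` with a power series `D_h` which does not
depend on `t`, and `D_h = X ^ v G` with `G(0) = 1` and `v ≤ x / 2`, except for the few `h` for which
`D_h` vanishes up to the order `x / 2` (their differences are multiples of a power of 2 above `x / 2`).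
The bound for the number of odd coefficients of `G / f_1 ^ t` on average over `t` (see `AverageOverT`) is
uniform in the series `G`, so it may be used for each `h` separately, and the sum over `h` bounds the
number of pairs at small distance. The exceptional `t` of part 2 are divided into `|𝒢|` classes such that
two of them in the same class are at distance at most `2 y`; the Cauchy-Schwarz inequality and part 1 for
`F' = F` give the bound.
-/

namespace Pool.Agent.Results.MP_a3366f_nt.FamiliesOfPredictors

open PowerSeries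

/-- the number `p_t(n)` of `t`-multipartitions of `n`: the coefficient of `q ^ n` in
`∏ 1 / (1 - q ^ i) ^ t` -/
def multipartitions (t n : ℕ) : ℕ :=
  ∑ x ∈ Finset.Nat.antidiagonalTuple t n, ∏ i, Fintype.card (Nat.Partition (x i))

/-- the coefficient of `q ^ n` modulo 2 in the product of the power series `∑ F(k) q ^ k` and
`∏ 1 / (1 - q ^ i) ^ t` -/
def coefficient (F : ℕ → ZMod 2) (t n : ℕ) : ZMod 2 :=
  ∑ k ∈ Finset.range (n + 1), F k * (multipartitions t (n - k) : ZMod 2)

/-- the number of the `n < x` for which the coefficient of `q ^ n` in the product of the power series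
`∑ F(k) q ^ k` and `∏ 1 / (1 - q ^ i) ^ t` is not `g(n)` modulo 2 -/
def errors (F g : ℕ → ZMod 2) (t x : ℕ) : ℕ :=
  ((Finset.range x).filter fun n => coefficient F t n ≠ g n).card

private theorem coefficient_eq (F : ℕ → ZMod 2) (t n : ℕ) :
    coefficient F t n = coeff n (PowerSeries.mk F * Pool.Agent.TH693.PP.P ^ t) := by
  unfold coefficient
  rw [coeff_mul, Finset.Nat.sum_antidiagonal_eq_sum_range_succ_mk]
  refine Finset.sum_congr rfl fun k _ => ?_
  rw [coeff_mk]
  have := Pool.Agent.H413R3.Part.coeff_pow_eq t (n - k)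
  unfold Pool.Agent.TH693.PP.P
  rw [this]
  rfl

private theorem errors_eq (F g : ℕ → ZMod 2) (t x : ℕ) :
    errors F g t x = Pool.Agent.L0h63.MP.err (PowerSeries.mk F) g x t := by
  unfold errors Pool.Agent.L0h63.MP.err
  congr 1
  ext n
  simp only [Finset.mem_filter]
  refine and_congr_right fun _ => ?_
  rw [coefficient_eq]

private theorem errors_coefficient_eq (F F' : ℕ → ZMod 2) (s t x : ℕ) :
    errors F (coefficient F' t) s x =
      Pool.Agent.L0h63.MP.dst2 (PowerSeries.mk F) (PowerSeries.mk F') x s t := by
  unfold errors Pool.Agent.L0h63.MP.dst2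
  congr 1
  ext n
  simp only [Finset.mem_filter]
  refine and_congr_right fun _ => ?_
  rw [coefficient_eq, coefficient_eq]

/-- Few pairs `(s, t)` are such that the coefficients of `F / f_1 ^ s` and `F' / f_1 ^ t` modulo 2 are
nearly the same, and few `t` are such that the coefficients of `F / f_1 ^ t` modulo 2 are nearly
predicted by one of the members of an arbitrary finite set of sequences. -/
theorem result (ε : ℝ) (hε : 0 < ε) :
    ∃ C : ℝ, ∀ F : ℕ → ZMod 2, F 0 = 1 → ∀ (A x N : ℕ) (y : ℝ), 1 ≤ x → 1 ≤ N → 1 ≤ y →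
      (∀ F' : ℕ → ZMod 2,
        ({p : ℕ × ℕ | (A ≤ p.1 ∧ p.1 < A + N) ∧ (A ≤ p.2 ∧ p.2 < A + N) ∧
          (errors F (coefficient F' p.2) p.1 x : ℝ) ≤ y}.ncard : ℝ) ≤
            C * y * N ^ 2 / (min x N : ℕ) ^ (1 - ε)) ∧
      ∀ 𝒢 : Finset (ℕ → ZMod 2),
        ({t : ℕ | A ≤ t ∧ t < A + N ∧ ∃ g ∈ 𝒢, (errors F g t x : ℝ) ≤ y}.ncard : ℝ) ≤
          C * N * √(𝒢.card * y / (min x N : ℕ) ^ (1 - ε)) := by
  classical
  obtain ⟨C₁, hC₁, h₁⟩ := Pool.Agent.L0h63.MP.pairs2 ε hε
  obtain ⟨C₂, hC₂, h₂⟩ := Pool.Agent.L0h63.MP.fam ε hε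
  refine ⟨max C₁ C₂, fun F hF A x N y hx hN hy => ⟨fun F' => ?_, fun 𝒢 => ?_⟩⟩
  · have h := h₁ (PowerSeries.mk F) (PowerSeries.mk F') (by rw [coeff_mk, hF]; exact one_ne_zero)
      A x N y hx hN hy
    have e : {p : ℕ × ℕ | (A ≤ p.1 ∧ p.1 < A + N) ∧ (A ≤ p.2 ∧ p.2 < A + N) ∧
          (errors F (coefficient F' p.2) p.1 x : ℝ) ≤ y} =
        ((Finset.Ico A (A + N) ×ˢ Finset.Ico A (A + N)).filter fun p =>
          (Pool.Agent.L0h63.MP.dst2 (PowerSeries.mk F) (PowerSeries.mk F') x p.1 p.2 : ℝ) ≤ y :
            Finset (ℕ × ℕ)) := by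
      ext p
      rw [Finset.mem_coe, Finset.mem_filter, Finset.mem_product, Finset.mem_Ico, Finset.mem_Ico,
        Set.mem_ofPred_eq, errors_coefficient_eq]
      tauto
    rw [e, Set.ncard_coe_finset]
    refine h.trans ?_
    have hy0 : 0 ≤ y := by linarith
    gcongr
    exact le_max_left _ _
  · have e : {t : ℕ | A ≤ t ∧ t < A + N ∧ ∃ g ∈ 𝒢, (errors F g t x : ℝ) ≤ y} =
        ((Finset.Ico A (A + N)).filter fun t =>
          ∃ g ∈ 𝒢, (Pool.Agent.L0h63.MP.err (PowerSeries.mk F) g x t : ℝ) ≤ y : Finset ℕ) := by
      ext t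
      rw [Finset.mem_coe, Finset.mem_filter, Finset.mem_Ico, Set.mem_ofPred_eq, and_assoc]
      refine and_congr_right fun _ => and_congr_right fun _ => ?_
      refine exists_congr fun g => and_congr_right fun _ => ?_
      rw [errors_eq]
    rw [e, Set.ncard_coe_finset]
    refine (h₂ (PowerSeries.mk F) (by rw [coeff_mk, hF]; exact one_ne_zero) 𝒢 A x N y hx hN hy _
      (Finset.filter_subset _ _) (fun t ht => (Finset.mem_filter.1 ht).2)).trans ?_
    gcongr
    exact le_max_right _ _

end Pool.Agent.Results.MP_a3366f_nt.FamiliesOfPredictors
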