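import Mathlib
import Pool.Agent.L0h78.DG.Mp

/-!
# Odd and even values of `p_t(n)` for almost all `t` in thin sets (MP_a3366f_nt)

Let `p_t(n)` be the number of `t`-multipartitions of `n`, that is, the coefficient of `q ^ n` in
`1 / f_1 ^ t`. Let `b ≥ 3` be odd, let `D_0, D_1, …` be sets of digits in base `b`, each with an even
and an odd element, and let `S` be the set of the `∏ |D_i|` integers `t < b ^ N` whose `i`-th digit
is in `D_i` for all `i < N` (for instance the integers without the digit `2` in base `3`, or the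
integers with the digits `0` and `1` only in a large base; these are thin sets: `T ^ a` members
below `T = b ^ N`, where `a` may be as small as we like).

Let `0 < ε < 1`. With constants `c, C > 0` which depend only on `b` and `ε`: for all power series
`F` over `F_2` with constant term 1, for `κ = 0, 1` and all `x, y ≥ 1`, at most
`C y |S| / min (x, exp (c √N)) ^ (1 - ε)` of the `t` in `S` are such that the coefficient of `q ^ n`
in `F / f_1 ^ t` is `κ` modulo 2 for at most `y` of the `n < x`.

Proof: for `n < 2 ^ J` the coefficient depends only on `t` modulo `2 ^ J`; by our theorem on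
intervals of `t` (`AverageOverT`) few classes modulo `2 ^ J` are exceptional, and `S` is
equidistributed in the classes modulo `2 ^ J` for `J ≤ c √N`, uniformly in the digit sets (the
exponential sum is a product, and in each window of `J + 1` digits one factor is small).
-/

set_option autoImplicit false

namespace Pool.Agent.Results.MP_a3366f_nt.RestrictedDigits

open PowerSeries

/-- the number `p_t(n)` of `t`-multipartitions of `n`: the coefficient of `q ^ n` in
`∏ 1 / (1 - q ^ i) ^ t` -/
def multipartitions (t n : ℕ) : ℕ :=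
  ∑ x ∈ Finset.Nat.antidiagonalTuple t n, ∏ i, Fintype.card (Nat.Partition (x i))

/-- the number of the `n < x` for which the coefficient of `q ^ n` in the product of the power series
`∑ F(k) q ^ k` and `∏ 1 / (1 - q ^ i) ^ t` is `κ` modulo 2 -/
def count (F : ℕ → ZMod 2) (κ : ZMod 2) (t x : ℕ) : ℕ :=
  ((Finset.range x).filter fun n => ∑ k ∈ Finset.range (n + 1),
    F k * (multipartitions t (n - k) : ZMod 2) = κ).card

/-- the integers below `b ^ N` whose `i`-th digit in base `b` is in `D i` for all `i < N` -/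
def S (b : ℕ) (D : ℕ → Finset ℕ) (N : ℕ) : Set ℕ := {t | t < b ^ N ∧ ∀ i < N, t / b ^ i % b ∈ D i}

private theorem count_eq (F : ℕ → ZMod 2) (κ : ZMod 2) (t x : ℕ) :
    count F κ t x = Pool.Agent.L0h63.MP.cntk (PowerSeries.mk F) κ x t := by
  unfold count Pool.Agent.L0h63.MP.cntk
  congr 1
  ext n
  simp only [Finset.mem_filter]
  refine and_congr_right fun _ => ?_
  have h : coeff n (PowerSeries.mk F * Pool.Agent.TH693.PP.P ^ t) =
      ∑ k ∈ Finset.range (n + 1), F k * (multipartitions t (n - k) : ZMod 2) := by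
    rw [coeff_mul, Finset.Nat.sum_antidiagonal_eq_sum_range_succ_mk]
    refine Finset.sum_congr rfl fun k _ => ?_
    rw [coeff_mk]
    have := Pool.Agent.H413R3.Part.coeff_pow_eq t (n - k)
    unfold Pool.Agent.TH693.PP.P
    rw [this]
    rfl
  rw [← h]

theorem result (b : ℕ) (hb : 3 ≤ b) (hbo : Odd b) (ε : ℝ) (hε : 0 < ε) (hε1 : ε < 1) :
    ∃ c C : ℝ, 0 < c ∧ 0 < C ∧ ∀ (N : ℕ) (D : ℕ → Finset ℕ), (∀ i, ∀ d ∈ D i, d < b) →
      (∀ i, (∃ d ∈ D i, Even d) ∧ ∃ d ∈ D i, Odd d) →
      (S b D N).ncard = ∏ i ∈ Finset.range N, (D i).card ∧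
      ∀ F : ℕ → ZMod 2, F 0 = 1 → ∀ (κ : ZMod 2) (x : ℕ) (y : ℝ), 1 ≤ x → 1 ≤ y →
        ({t ∈ S b D N | (count F κ t x : ℝ) ≤ y}.ncard : ℝ) ≤
          C * y * (S b D N).ncard / (min (x : ℝ) (Real.exp (c * √(N : ℝ)))) ^ (1 - ε) := by
  classical
  obtain ⟨c, C, hc, hC, h⟩ := Pool.Agent.L0h78.DG.mp b hb hbo ε hε hε1
  refine ⟨c, C, hc, hC, fun N D hD hpar => ?_⟩
  have hS : S b D N = (Pool.Agent.L0h78.DG.SS b D N : Set ℕ) := by
    ext t
    constructor
    · rintro ⟨h1, h2⟩
      exact Finset.mem_coe.2 (Pool.Agent.L0h78.DG.mem_SS (by omega) N t h1 h2)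
    · intro ht
      exact ⟨Pool.Agent.L0h78.DG.SS_lt hD N t (Finset.mem_coe.1 ht),
        Pool.Agent.L0h78.DG.SS_digit hD N t (Finset.mem_coe.1 ht)⟩
  refine ⟨?_, fun F hF κ x y hx hy => ?_⟩
  · rw [hS, Set.ncard_coe_finset, Pool.Agent.L0h78.DG.card_SS hD]
  · have h1 := h N D hD hpar (PowerSeries.mk F) (by rw [coeff_mk, hF]; exact one_ne_zero) κ x y hx hy
    have e : {t ∈ S b D N | (count F κ t x : ℝ) ≤ y} =
        ((Pool.Agent.L0h78.DG.SS b D N).filter fun t =>
          (Pool.Agent.L0h63.MP.cntk (PowerSeries.mk F) κ x t : ℝ) ≤ y : Finset ℕ) := by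
      ext t
      rw [Finset.mem_coe, Finset.mem_filter, hS, Set.mem_ofPred_eq, count_eq, Finset.mem_coe]
    rw [e, hS, Set.ncard_coe_finset, Set.ncard_coe_finset]
    exact h1

end Pool.Agent.Results.MP_a3366f_nt.RestrictedDigits
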