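import Pool.Agent.L0h20.TA.Main2

set_option autoImplicit false

/-!
# Parity of the coefficients of `F / f_1 ^ t` for 2-adic exponents `t`: dimension of the exceptional set (MP_a3366f_nt)

Let `p_t(n)` be the number of `t`-multipartitions of `n`, the coefficient of `q ^ n` in `1 / f_1 ^ t`. Modulo 2 it depends only
on `t` modulo `2 ^ k`, if `n < 2 ^ k`. So `1 / f_1 ^ t` modulo 2 is defined for all 2-adic integers `t`, and the question is
whether its odd density is `1 / 2` for all odd natural numbers `t`. Let `F` be a power series over `F_2`. A residue class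
`r` modulo `2 ^ j` is active (for `F` and `t`) if for some `n ≡ r` the coefficient of `q ^ n` in `F / f_1 ^ t` is odd; otherwise
all coefficients in the class are even. If `F(0) = 1` the class of all numbers (`j = 0`) is active.

1. For `0 ≤ β` the 2-adic integers `t` for which, for some active class `r` modulo `2 ^ j` and arbitrarily large `x`, at most
   `x ^ β` of the coefficients of `q ^ (2 ^ j n + r)`, `n < x`, in `F / f_1 ^ t` are odd, or at most `x ^ β` are even, form a set
   of Hausdorff dimension at most `β`. The same is true for any countable set of series `F` simultaneously, for instance for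
   those which give all eta-quotients, or all linear patterns `∑ c_{i,l} p_{t + i}(n - l)`.
2. For an arbitrary sequence `g : ℕ → F_2`, the 2-adic integers `t` for which, for some active class and arbitrarily large `x`,
   the coefficients of `q ^ (2 ^ j n + r)` are `g(n)` for all `n < x` with at most `x ^ β` exceptions, form a set of Hausdorff
   dimension at most `(1 + β) / 2`. The same is true for countably many pairs `(F, g)`, for instance for all computable
   sequences `g`.
3. For a measure `μ` with `μ(B) ≤ K r ^ δ` for all balls `B` of radius `r` the following holds for `μ`-almost all `t` and all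
   active classes: for all large `x` more than `x ^ β` of the coefficients of `q ^ (2 ^ j n + r)`, `n < x`, are odd, and more than
   `x ^ β` are even, if `0 ≤ β < δ`; and more than `x ^ β` are different from `g(n)`, if `0 ≤ β < 2 δ - 1`. Finite measures which
   are invariant under translation (the Haar measures) have this property with `δ = 1`.

The proof: the part of `F / f_1 ^ t` in a class modulo `2 ^ j` is `G / f_1 ^ t'` with `t = u + 2 ^ j t'` and one of finitely many
series `G`; the estimates of `AverageOverT` and `ArbitraryPredictors` for the number of exceptional residues modulo `2 ^ k` at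
`x = 2 ^ k`, which are uniform in the series and in `g`; and coverings by residue classes of `t`.
-/

namespace Pool.Agent.Results.MP_a3366f_nt.TwoAdicExponents

open PowerSeries Filter MeasureTheory

/-- the number `p_t(n)` of `t`-multipartitions of `n`: the coefficient of `q ^ n` in
`∏ 1 / (1 - q ^ i) ^ t` -/
def multipartitions (t n : ℕ) : ℕ :=
  ∑ x ∈ Finset.Nat.antidiagonalTuple t n, ∏ i, Fintype.card (Nat.Partition (x i))

/-- The coefficient of `q ^ n` modulo 2 in the product of the power series `∑ F(k) q ^ k` and `1 / f_1 ^ t`, for a 2-adic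
integer `t`; `t.appr (n + 1)` is the natural number below `2 ^ (n + 1)` which is congruent to `t` modulo `2 ^ (n + 1)`. -/
noncomputable def coef (F : ℕ → ZMod 2) (t : ℤ_[2]) (n : ℕ) : ZMod 2 :=
  ∑ k ∈ Finset.range (n + 1), F k * (multipartitions (t.appr (n + 1)) (n - k) : ZMod 2)

/-- `r < 2 ^ j` and one of the coefficients in the class `r` modulo `2 ^ j` is odd -/
def Active (F : ℕ → ZMod 2) (j r : ℕ) (t : ℤ_[2]) : Prop := r < 2 ^ j ∧ ∃ n, coef F t (2 ^ j * n + r) = 1

/-- the number of the `n < x` for which the coefficient of `q ^ (2 ^ j n + r)` is `κ` -/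
noncomputable def count (F : ℕ → ZMod 2) (κ : ZMod 2) (j r : ℕ) (t : ℤ_[2]) (x : ℕ) : ℕ :=
  ((Finset.range x).filter fun n => coef F t (2 ^ j * n + r) = κ).card

/-- the number of the `n < x` for which the coefficient of `q ^ (2 ^ j n + r)` is not `g(n)` -/
noncomputable def errors (F g : ℕ → ZMod 2) (j r : ℕ) (t : ℤ_[2]) (x : ℕ) : ℕ :=
  ((Finset.range x).filter fun n => coef F t (2 ^ j * n + r) ≠ g n).card

/-- `c t x ≤ x ^ β` for arbitrarily large `x` -/
def Few (c : ℤ_[2] → ℕ → ℕ) (β : ℝ) (t : ℤ_[2]) : Prop := ∀ x₀ : ℕ, ∃ x ≥ x₀, (c t x : ℝ) ≤ (x : ℝ) ^ β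

/-- the measure of every ball of radius `2 ^ (-k)` is at most `K 2 ^ (- δ k)` -/
def Frostman [MeasurableSpace ℤ_[2]] (μ : Measure ℤ_[2]) (K δ : ℝ) : Prop :=
  ∀ (t : ℤ_[2]) (k : ℕ), μ (Metric.closedBall t ((2 : ℝ) ^ (-(k : ℤ)))) ≤ ENNReal.ofReal (K * 2 ^ (-(δ * k)))

private theorem conv (F : ℕ → ZMod 2) (t n : ℕ) :
    coeff n (PowerSeries.mk F * Pool.Agent.TH693.PP.P ^ t) =
      ∑ k ∈ Finset.range (n + 1), F k * (multipartitions t (n - k) : ZMod 2) := by
  rw [coeff_mul, Finset.Nat.sum_antidiagonal_eq_sum_range_succ_mk]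
  refine Finset.sum_congr rfl fun k _ => ?_
  rw [coeff_mk]
  have := Pool.Agent.H413R3.Part.coeff_pow_eq t (n - k)
  unfold Pool.Agent.TH693.PP.P
  rw [this]
  rfl

private theorem coef_eq (F : ℕ → ZMod 2) (t : ℤ_[2]) (n : ℕ) :
    coef F t n = Pool.Agent.L0h20.TA.cf (PowerSeries.mk F) t n := (conv F _ n).symm

private theorem count_eq (F : ℕ → ZMod 2) (κ : ZMod 2) (j r : ℕ) :
    count F κ j r = Pool.Agent.L0h20.TA.cc (PowerSeries.mk F) κ j r := by
  funext t x
  unfold count Pool.Agent.L0h20.TA.cc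
  simp only [coef_eq]

private theorem errors_eq (F g : ℕ → ZMod 2) (j r : ℕ) :
    errors F g j r = Pool.Agent.L0h20.TA.ce (PowerSeries.mk F) g j r := by
  funext t x
  unfold errors Pool.Agent.L0h20.TA.ce
  simp only [coef_eq]

private theorem active {F : ℕ → ZMod 2} {j r : ℕ} {t : ℤ_[2]} (h : Active F j r t) :
    ∃ n, Pool.Agent.L0h20.TA.cf (PowerSeries.mk F) t (2 ^ j * n + r) ≠ 0 := by
  obtain ⟨n, hn⟩ := h.2
  refine ⟨n, ?_⟩
  rw [← coef_eq, hn]
  exact one_ne_zero

private theorem dim_count (F : ℕ → ZMod 2) (κ : ZMod 2) (j r : ℕ) {β : ℝ} (hβ : 0 ≤ β) :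
    dimH {t | Active F j r t ∧ Few (count F κ j r) β t} ≤ ENNReal.ofReal β := by
  rcases lt_or_ge r (2 ^ j) with hr | hr
  · refine (dimH_mono ?_).trans (Pool.Agent.L0h20.TA.dim_cc (PowerSeries.mk F) κ hr hβ)
    rintro t ⟨h1, h2⟩
    rw [count_eq] at h2
    exact ⟨active h1, h2⟩
  · have : {t | Active F j r t ∧ Few (count F κ j r) β t} = ∅ := by
      ext t
      simp only [Set.mem_ofPred_eq, Set.mem_empty_iff_false, iff_false]
      rintro ⟨h, -⟩
      exact absurd h.1 (not_lt.2 hr)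
    rw [this, dimH_empty]
    exact zero_le

private theorem dim_errors (F g : ℕ → ZMod 2) (j r : ℕ) {β : ℝ} (hβ : 0 ≤ β) :
    dimH {t | Active F j r t ∧ Few (errors F g j r) β t} ≤ ENNReal.ofReal ((1 + β) / 2) := by
  rcases lt_or_ge r (2 ^ j) with hr | hr
  · refine (dimH_mono ?_).trans (Pool.Agent.L0h20.TA.dim_ce (PowerSeries.mk F) g hr hβ)
    rintro t ⟨h1, h2⟩
    rw [errors_eq] at h2
    exact ⟨active h1, h2⟩
  · have : {t | Active F j r t ∧ Few (errors F g j r) β t} = ∅ := by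
      ext t
      simp only [Set.mem_ofPred_eq, Set.mem_empty_iff_false, iff_false]
      rintro ⟨h, -⟩
      exact absurd h.1 (not_lt.2 hr)
    rw [this, dimH_empty]
    exact zero_le

theorem result :
    (∀ (F : ℕ → ZMod 2) (t : ℤ_[2]) (T k n : ℕ), (2 : ℤ_[2]) ^ k ∣ t - T → n < 2 ^ k →
      coef F t n = ∑ i ∈ Finset.range (n + 1), F i * (multipartitions T (n - i) : ZMod 2)) ∧
    (∀ 𝓕 : Set (ℕ → ZMod 2), 𝓕.Countable → ∀ β : ℝ, 0 ≤ β →
      dimH {t | ∃ F ∈ 𝓕, ∃ j r κ, Active F j r t ∧ Few (count F κ j r) β t} ≤ ENNReal.ofReal β) ∧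
    (∀ 𝓖 : Set ((ℕ → ZMod 2) × (ℕ → ZMod 2)), 𝓖.Countable → ∀ β : ℝ, 0 ≤ β →
      dimH {t | ∃ p ∈ 𝓖, ∃ j r, Active p.1 j r t ∧ Few (errors p.1 p.2 j r) β t} ≤ ENNReal.ofReal ((1 + β) / 2)) ∧
    (∀ [MeasurableSpace ℤ_[2]] [BorelSpace ℤ_[2]] (μ : Measure ℤ_[2]),
      (∀ K δ : ℝ, Frostman μ K δ →
        (∀ 𝓕 : Set (ℕ → ZMod 2), 𝓕.Countable → ∀ β : ℝ, 0 ≤ β → β < δ →
          ∀ᵐ t ∂μ, ∀ F ∈ 𝓕, ∀ j r κ, Active F j r t → ∀ᶠ x : ℕ in atTop, (x : ℝ) ^ β < count F κ j r t x) ∧
        (∀ 𝓖 : Set ((ℕ → ZMod 2) × (ℕ → ZMod 2)), 𝓖.Countable → ∀ β : ℝ, 0 ≤ β → β < 2 * δ - 1 →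
          ∀ᵐ t ∂μ, ∀ p ∈ 𝓖, ∀ j r, Active p.1 j r t →
            ∀ᶠ x : ℕ in atTop, (x : ℝ) ^ β < errors p.1 p.2 j r t x)) ∧
      (∀ [IsFiniteMeasure μ] [μ.IsAddLeftInvariant], Frostman μ (μ.real Set.univ) 1)) := by
  refine ⟨fun F t T k n h hn => ?_, fun 𝓕 hc β hβ => ?_, fun 𝓖 hc β hβ => ?_, ?_⟩
  · rw [coef_eq, Pool.Agent.L0h20.TA.cf_eq _ h hn, conv]
  · have e : {t : ℤ_[2] | ∃ F ∈ 𝓕, ∃ j r κ, Active F j r t ∧ Few (count F κ j r) β t} =
        ⋃ F ∈ 𝓕, ⋃ i : ℕ × ℕ × ZMod 2, {t | Active F i.1 i.2.1 t ∧ Few (count F i.2.2 i.1 i.2.1) β t} := by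
      ext t
      simp only [Set.mem_ofPred_eq, Set.mem_iUnion, exists_prop, Prod.exists]
    rw [e, dimH_bUnion hc]
    refine iSup₂_le fun F _ => ?_
    rw [dimH_iUnion]
    exact iSup_le fun i => dim_count F i.2.2 i.1 i.2.1 hβ
  · have e : {t : ℤ_[2] | ∃ p ∈ 𝓖, ∃ j r, Active p.1 j r t ∧ Few (errors p.1 p.2 j r) β t} =
        ⋃ p ∈ 𝓖, ⋃ i : ℕ × ℕ, {t | Active p.1 i.1 i.2 t ∧ Few (errors p.1 p.2 i.1 i.2) β t} := by
      ext t
      simp only [Set.mem_ofPred_eq, Set.mem_iUnion, exists_prop, Prod.exists]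
    rw [e, dimH_bUnion hc]
    refine iSup₂_le fun p _ => ?_
    rw [dimH_iUnion]
    exact iSup_le fun i => dim_errors p.1 p.2 i.1 i.2 hβ
  · intro _ _ μ
    refine ⟨fun K δ hμ => ⟨fun 𝓕 hc β hβ hδ => ?_, fun 𝓖 hc β hβ hδ => ?_⟩, ?_⟩
    · rw [ae_ball_iff hc]
      intro F _
      simp only [ae_all_iff]
      intro j r κ
      rcases lt_or_ge r (2 ^ j) with hr | hr
      · filter_upwards [Pool.Agent.L0h20.TA.ae_cc hμ (PowerSeries.mk F) κ hr hβ hδ] with t ht h
        rw [count_eq]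
        exact ht (active h)
      · exact Eventually.of_forall fun t h => absurd h.1 (not_lt.2 hr)
    · rw [ae_ball_iff hc]
      intro p _
      simp only [ae_all_iff]
      intro j r
      rcases lt_or_ge r (2 ^ j) with hr | hr
      · filter_upwards [Pool.Agent.L0h20.TA.ae_ce hμ (PowerSeries.mk p.1) p.2 hr hβ (by linarith)] with t ht h
        rw [errors_eq]
        exact ht (active h)
      · exact Eventually.of_forall fun t h => absurd h.1 (not_lt.2 hr)
    · intro _ _
      exact Pool.Agent.L0h20.TA.haar_frostman μ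

end Pool.Agent.Results.MP_a3366f_nt.TwoAdicExponents
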